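import Pool.Agent.H547S1.Cls

/-!
# Oblivious transfer and one-way functions over sets of Boolean functions

`OwfOver B`: there is a one-way function whose output bits have circuits of polynomial size with
gates from `B`. `OtOver B`: there is a semi-honest oblivious transfer protocol in which each bit
of each message, as a function of the input, the coins and the transcript so far, has circuits of
polynomial size with gates from `B`. `OWF`, `OT`: the same without the conditions on circuits.
`B` is an arbitrary set of Boolean functions; the constants are not given for free.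
-/

set_option autoImplicit false

namespace Pool.Agent.Results.MP_ae38e0_lc.GateSetTrichotomy

open Pool.Agent.NPC Pool.Agent.H547R6 Pool.Agent.H547R7 Pool.Agent.H547R8 Pool.Agent.H547R9
open Pool.Agent.H547S1

/-- **Trichotomy for one-way functions and oblivious transfer over gate sets.** -/
theorem result (B : Set BFun) :
    ((B ⊆ Aff ∨ B ⊆ Conj ∨ B ⊆ Disj) → ¬ OwfOver B ∧ ¬ OtOver B) ∧
    ((B ⊆ Mon ∨ B ⊆ SelfDual) → ¬ B ⊆ Aff → ¬ B ⊆ Conj → ¬ B ⊆ Disj →
      (OwfOver B ↔ OWF) ∧ ¬ OtOver B) ∧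
    (¬ B ⊆ Mon → ¬ B ⊆ SelfDual → ¬ B ⊆ Aff → (OwfOver B ↔ OWF) ∧ (OtOver B ↔ OT)) := by
  have hp := cls_ot B
  have ho := cls_owf B
  refine ⟨fun h => ⟨fun h1 => (ho.1 h1).1 h, fun h1 => (hp.1 h1).1 ?_⟩,
    fun hM hA hC hD => ⟨⟨fun h1 => (ho.1 h1).2, fun h1 => ho.2 ⟨by tauto, h1⟩⟩,
      fun h1 => (hp.1 h1).1 (by tauto)⟩,
    fun hM hS hA => ⟨⟨fun h1 => (ho.1 h1).2, fun h1 => ho.2 ⟨?_, h1⟩⟩,
      ⟨fun h1 => (hp.1 h1).2, fun h1 => hp.2 ⟨by tauto, h1⟩⟩⟩⟩
  · rcases h with h | h | h
    · exact Or.inr (Or.inl h)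
    · exact Or.inl (h.trans conj_mon)
    · exact Or.inl (h.trans disj_mon)
  · rintro (h | h | h)
    · exact hA h
    · exact hM (h.trans conj_mon)
    · exact hM (h.trans disj_mon)

end Pool.Agent.Results.MP_ae38e0_lc.GateSetTrichotomy
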