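import Pool.Agent.H822R2.KA.OT

set_option autoImplicit false

/-!
# No black-box construction of perfectly correct oblivious transfer between quantum parties with
# classical communication from one-way functions
-/

namespace Pool.Agent.Results.MP_ae38e0_lc.QuantumOT

open Pool.Agent.H822R2.KA

/-- Let `P k`, `k = 0, 1, …`, be protocols for oblivious transfer with `n k` classical messages, in
which the sender and the receiver have quantum memories (of finite dimension) and ask at most `q k`
questions each, in superposition, to the same oracle `h : ι → Bool`. Suppose that, whatever the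
oracle, the receiver never outputs a wrong bit. Then there is a deterministic classical algorithm
`Eve` with at most `q k ^ 3 * (q k + 1)` questions, such that for every oracle `h` and every `c`:
* `Eve (k, t, c)` is the bit number `c` of the sender with certainty, if the choice is `c`;
* if the choice is `!c`, then either `Eve (k, t, c)` is different from the bit number `c` with
  probability at least `1/4` (so the sender distinguishes the two choices) or `Eve (k, t, c)` is
  equal to it with probability at least `3/4` (so the receiver finds the other bit);
moreover, relative to the oracle and `Eve` random functions are still one-way for quantum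
algorithms. -/
theorem result {ι M : Type} {σ τ : ℕ → Type} [∀ k, Fintype (σ k)] [∀ k, Fintype (τ k)]
    [Fintype M] (P : ∀ k, OT ι (σ k) (τ k) M) (n q : ℕ → ℕ)
    (hS : ∀ k b, ((P k).sender b).Normal) (hR : ∀ k c, ((P k).receiver c).Normal)
    (hq : ∀ (k : ℕ) (t : List M) (b : Bool × Bool) (c y : Bool), t.length = n k →
      asks ((P k).stepsS b t) ≤ q k ∧
      asks ((P k).stepsR c t ++ ((P k).receiver c).out t y) ≤ q k)
    (hc : ∀ (k : ℕ) (h : ι → Bool) (b : Bool × Bool) (c : Bool) (t : List M) (y : Bool),
      t.length = n k → y ≠ pick c b → (P k).probOut h b c t y = 0) :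
    ∃ Eve : ℕ × List M × Bool → DTree ι Bool,
      (∀ k t c, (Eve (k, t, c)).depth ≤ q k ^ 3 * (q k + 1)) ∧
      (∀ (k : ℕ) (h : ι → Bool) (c : Bool),
        (P k).finds (n k) h c (fun t => (Eve (k, t, c)).eval h) c = 1 ∧
        (1 / 4 ≤ (P k).finds (n k) h c (fun t => (Eve (k, t, c)).eval h) c -
            (P k).finds (n k) h (!c) (fun t => (Eve (k, t, c)).eval h) c ∨
          3 / 4 ≤ (P k).finds (n k) h (!c) (fun t => (Eve (k, t, c)).eval h) c)) ∧
      OneWayDespite Eve (fun j => q j.1) := by
  obtain ⟨Eve, h1, h2, h3⟩ := oblivious_transfer P n q hS hR hq hc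
  refine ⟨Eve, fun k t c => h1 (k, t, c), fun k h c => ⟨h2 k h c, ?_⟩, h3⟩
  rw [h2 k h c]
  rcases le_total (3 / 4 : ℝ) ((P k).finds (n k) h (!c) (fun t => (Eve (k, t, c)).eval h) c) with
    h4 | h4
  · exact Or.inr h4
  · left
    linarith

end Pool.Agent.Results.MP_ae38e0_lc.QuantumOT
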